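import Pool.Agent.H85.SC.Targets

/-!
# Module APD of the board of helper85 (MP_de9001_an): arithmetic progressions in base four
-/

namespace Pool.Agent.H37.SC

open Pool.Agent.H85.SC

/-- `z` has the base four digits of `cc n` below `a` and the digit `d` at `a`. -/
def Dg (n a : ℕ) (d z : ℤ) : Prop := (4 : ℤ) ^ (a + 1) ∣ z - cc n - d * 4 ^ a

theorem inh_Dg {n : ℕ} {z : ℤ} : inh n z ↔ Dg n (Nat.size n) 1 z := by
  unfold inh Dg
  rw [one_mul]

theorem ing_Dg {n : ℕ} {z : ℤ} : ing n z ↔ Dg n (Nat.size n) 3 z := Iff.rfl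

theorem cc_bd (h : T_CCA) {n a : ℕ} (hn : n < 2 ^ a) : 0 ≤ cc n ∧ cc n < 4 ^ a := by
  obtain ⟨h0, h1, -⟩ := h
  refine ⟨(h1 n).1, lt_of_lt_of_le (h1 n).2 ?_⟩
  exact pow_le_pow_right₀ (by norm_num) (Nat.size_le.mpr hn)

theorem cc_inj_mod (h : T_CCA) {n m a : ℕ} (hn : n < 2 ^ a) (hm : m < 2 ^ a)
    (hd : (4 : ℤ) ^ a ∣ cc n - cc m) : n = m := by
  obtain ⟨a1, a2⟩ := cc_bd h hn
  obtain ⟨b1, b2⟩ := cc_bd h hm
  refine h.2.2.2.1 n m ?_
  have : cc n - cc m = 0 := by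
    refine Int.eq_zero_of_abs_lt_dvd hd ?_
    rw [abs_lt]
    constructor <;> linarith
  linarith

theorem Dg_dvd {n a : ℕ} {d z : ℤ} (h : Dg n a d z) : (4 : ℤ) ^ a ∣ z - cc n := by
  have h1 : (4 : ℤ) ^ a ∣ z - cc n - d * 4 ^ a := (pow_dvd_pow 4 (Nat.le_succ a)).trans h
  have h2 : (4 : ℤ) ^ a ∣ d * 4 ^ a := Dvd.intro_left d rfl
  have := dvd_add h1 h2
  simpa using this

theorem digitA (h : T_CCA) {n a m : ℕ} {d z : ℤ} (hn : n < 2 ^ a) (hd : d = 1 ∨ d = 3)
    (hD : Dg n a d z) (hm : (4 : ℤ) ^ (a + 1) ∣ z - cc m) : False := by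
  obtain ⟨h0, h1, h2, h3, h4⟩ := h
  have e1 : (4 : ℤ) ^ (a + 1) ∣ cc m - cc n - d * 4 ^ a := by
    have := dvd_sub hD hm
    have e : z - cc n - d * 4 ^ a - (z - cc m) = cc m - cc n - d * 4 ^ a := by ring
    rwa [e] at this
  have e2 : (4 : ℤ) ^ (a + 1) ∣ cc (m % 2 ^ (a + 1)) - cc n - d * 4 ^ a := by
    have := dvd_sub e1 (h4 m (a + 1))
    have e : cc m - cc n - d * 4 ^ a - (cc m - cc (m % 2 ^ (a + 1))) =
      cc (m % 2 ^ (a + 1)) - cc n - d * 4 ^ a := by ring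
    rwa [e] at this
  have hlt : m % 2 ^ (a + 1) < 2 ^ (a + 1) := Nat.mod_lt _ (by positivity)
  set k := m % 2 ^ (a + 1) with hk
  have h4a : (4 : ℤ) ^ a ≠ 0 := by positivity
  by_cases hka : k < 2 ^ a
  · have e3 : (4 : ℤ) ^ a ∣ cc k - cc n := Dg_dvd (z := cc k) (d := d) e2
    have e4 : k = n := cc_inj_mod ⟨h0, h1, h2, h3, h4⟩ hka hn e3
    rw [e4, sub_self, zero_sub, dvd_neg, pow_succ, mul_comm ((4 : ℤ) ^ a) 4] at e2
    have e5 := (mul_dvd_mul_iff_right h4a).mp e2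
    rcases hd with rfl | rfl <;> omega
  · push Not at hka
    have hk2 : k - 2 ^ a < 2 ^ a := by
      rw [pow_succ] at hlt; omega
    have e3 := h2 (k - 2 ^ a) a hk2
    rw [Nat.sub_add_cancel hka] at e3
    rw [e3] at e2
    have e2' : (4 : ℤ) ^ (a + 1) ∣ cc (k - 2 ^ a) - cc n - (d - 2) * 4 ^ a := by
      convert e2 using 1
      ring
    have e4 : (4 : ℤ) ^ a ∣ cc (k - 2 ^ a) - cc n := Dg_dvd (z := cc (k - 2 ^ a)) (d := d - 2) e2'
    have e5 : k - 2 ^ a = n := cc_inj_mod ⟨h0, h1, h2, h3, h4⟩ hk2 hn e4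
    rw [e5, sub_self, zero_sub, dvd_neg, pow_succ, mul_comm ((4 : ℤ) ^ a) 4] at e2'
    have e6 := (mul_dvd_mul_iff_right h4a).mp e2'
    rcases hd with rfl | rfl <;> omega

theorem digitB (h : T_CCA) {n a n' a' : ℕ} {d d' z : ℤ} (hn : n < 2 ^ a) (hn' : n' < 2 ^ a')
    (hd : d = 1 ∨ d = 3) (hd' : d' = 1 ∨ d' = 3) (hD : Dg n a d z) (hD' : Dg n' a' d' z) :
    a = a' ∧ n = n' ∧ d = d' := by
  rcases lt_trichotomy a a' with hlt | heq | hlt
  · exact absurd ((pow_dvd_pow 4 (Nat.succ_le_of_lt hlt)).trans (Dg_dvd hD'))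
      fun hh => digitA h hn hd hD hh
  · subst heq
    have e1 : (4 : ℤ) ^ a ∣ cc n - cc n' := by
      have := dvd_sub (Dg_dvd hD') (Dg_dvd hD)
      have e : z - cc n' - (z - cc n) = cc n - cc n' := by ring
      rwa [e] at this
    have e2 := cc_inj_mod h hn hn' e1
    subst e2
    refine ⟨rfl, rfl, ?_⟩
    have e3 : (4 : ℤ) ^ (a + 1) ∣ (d' - d) * 4 ^ a := by
      have := dvd_sub hD hD'
      have e : z - cc n - d * 4 ^ a - (z - cc n - d' * 4 ^ a) = (d' - d) * 4 ^ a := by ring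
      rwa [e] at this
    rw [pow_succ, mul_comm ((4 : ℤ) ^ a) 4] at e3
    have e4 := (mul_dvd_mul_iff_right (show (4 : ℤ) ^ a ≠ 0 by positivity)).mp e3
    rcases hd with rfl | rfl <;> rcases hd' with rfl | rfl <;> omega
  · exact absurd ((pow_dvd_pow 4 (Nat.succ_le_of_lt hlt)).trans (Dg_dvd hD))
      fun hh => digitA h hn' hd' hD' hh

theorem tree_mod {S : Set ℕ} (hS : IsTree S) (b : ℕ) : ∀ n, n ∈ S → n % 2 ^ b ∈ S := by
  intro n
  induction n using Nat.strong_induction_on with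
  | _ n ih =>
    intro hn
    by_cases hb : n < 2 ^ b
    · rwa [Nat.mod_eq_of_lt hb]
    · push Not at hb
      have hn0 : n ≠ 0 := by
        have : 0 < 2 ^ b := by positivity
        omega
      have g1 : 2 ^ Nat.log 2 n ≤ n := Nat.pow_log_le_self 2 hn0
      have g2 : n < 2 ^ (Nat.log 2 n + 1) := Nat.lt_pow_succ_log_self (by norm_num) n
      have hba : b ≤ Nat.log 2 n := by
        have : 2 ^ b < 2 ^ (Nat.log 2 n + 1) := by omega
        have := (Nat.pow_lt_pow_iff_right (by norm_num : 1 < 2)).mp this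
        omega
      have hp : 0 < 2 ^ Nat.log 2 n := by positivity
      have h1 : n - 2 ^ Nat.log 2 n ∈ S := by
        refine hS.2 _ (Nat.log 2 n) ?_ ?_
        · rw [pow_succ] at g2; omega
        · rwa [Nat.sub_add_cancel g1]
      have h2 := ih (n - 2 ^ Nat.log 2 n) (by omega) h1
      obtain ⟨c, hc⟩ := pow_dvd_pow 2 hba
      have h3 : n % 2 ^ b = (n - 2 ^ Nat.log 2 n) % 2 ^ b := by
        conv_lhs => rw [← Nat.sub_add_cancel g1]
        rw [hc, Nat.add_mul_mod_self_left]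
      rwa [h3]

theorem ind_of {P : ℤ → Prop} {z : ℤ} (h : P z) : ind P z = 1 := by
  unfold ind
  exact if_pos h

theorem ind_not {P : ℤ → Prop} {z : ℤ} (h : ¬ P z) : ind P z = 0 := by
  unfold ind
  exact if_neg h

theorem lt_size (n : ℕ) : n < 2 ^ Nat.size n := Nat.lt_size_self n

/-- The module APD. -/
theorem apd (h : T_CCA) : T_APD := by
  refine ⟨?_, ?_, ?_, ?_, ?_, ?_, ?_⟩
  · intro n n' z h1 h2
    rw [inh_Dg] at h1 h2
    exact (digitB h (lt_size n) (lt_size n') (Or.inl rfl) (Or.inl rfl) h1 h2).2.1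
  · intro n n' z h1 h2
    rw [ing_Dg] at h1 h2
    exact (digitB h (lt_size n) (lt_size n') (Or.inr rfl) (Or.inr rfl) h1 h2).2.1
  · intro n n' z h1 h2
    rw [inh_Dg] at h1
    rw [ing_Dg] at h2
    have := (digitB h (lt_size n) (lt_size n') (Or.inl rfl) (Or.inr rfl) h1 h2).2.2
    norm_num at this
  · intro n a hn z
    have h4a : (4 : ℤ) ^ a ≠ 0 := by positivity
    have hK2 : inK (n + 2 ^ a) (a + 1) z ↔ (4 : ℤ) ^ (a + 1) ∣ z - cc n - 2 * 4 ^ a := by
      unfold inK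
      rw [h.2.2.1 n a hn]
      have e : z - (cc n + 2 * 4 ^ a) = z - cc n - 2 * 4 ^ a := by ring
      rw [e]
    by_cases hK : inK n a z
    · obtain ⟨q, hq⟩ := hK
      have hj : ∀ j : ℤ, (4 : ℤ) ^ (a + 1) ∣ z - cc n - j * 4 ^ a ↔ (4 : ℤ) ∣ q - j := by
        intro j
        have e : z - cc n - j * 4 ^ a = (q - j) * 4 ^ a := by rw [hq]; ring
        rw [e, pow_succ, mul_comm ((4 : ℤ) ^ a) 4]
        exact mul_dvd_mul_iff_right h4a
      have h0 : inK n (a + 1) z ↔ (4 : ℤ) ∣ q - 0 := by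
        rw [← hj 0]; unfold inK; simp
      have h1 : (4 : ℤ) ^ (a + 1) ∣ z - cc n - 4 ^ a ↔ (4 : ℤ) ∣ q - 1 := by
        rw [← hj 1, one_mul]
      have h2 : inK (n + 2 ^ a) (a + 1) z ↔ (4 : ℤ) ∣ q - 2 := by
        rw [hK2, hj 2]
      have h3 : (4 : ℤ) ^ (a + 1) ∣ z - cc n - 3 * 4 ^ a ↔ (4 : ℤ) ∣ q - 3 := hj 3
      rw [ind_of (P := inK n a) ⟨q, hq⟩]
      have hmod : q % 4 = 0 ∨ q % 4 = 1 ∨ q % 4 = 2 ∨ q % 4 = 3 := by omega
      rcases hmod with m | m | m | m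
      · rw [ind_of (h0.mpr (by omega)),
          ind_not (P := fun z => (4 : ℤ) ^ (a + 1) ∣ z - cc n - 4 ^ a)
            (fun hh => by have := h1.mp hh; omega),
          ind_not (fun hh => by have := h2.mp hh; omega),
          ind_not (P := fun z => (4 : ℤ) ^ (a + 1) ∣ z - cc n - 3 * 4 ^ a)
            (fun hh => by have := h3.mp hh; omega)]
        norm_num
      · rw [ind_not (fun hh => by have := h0.mp hh; omega),
          ind_of (P := fun z => (4 : ℤ) ^ (a + 1) ∣ z - cc n - 4 ^ a) (h1.mpr (by omega)),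
          ind_not (fun hh => by have := h2.mp hh; omega),
          ind_not (P := fun z => (4 : ℤ) ^ (a + 1) ∣ z - cc n - 3 * 4 ^ a)
            (fun hh => by have := h3.mp hh; omega)]
        norm_num
      · rw [ind_not (fun hh => by have := h0.mp hh; omega),
          ind_not (P := fun z => (4 : ℤ) ^ (a + 1) ∣ z - cc n - 4 ^ a)
            (fun hh => by have := h1.mp hh; omega),
          ind_of (h2.mpr (by omega)),
          ind_not (P := fun z => (4 : ℤ) ^ (a + 1) ∣ z - cc n - 3 * 4 ^ a)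
            (fun hh => by have := h3.mp hh; omega)]
        norm_num
      · rw [ind_not (fun hh => by have := h0.mp hh; omega),
          ind_not (P := fun z => (4 : ℤ) ^ (a + 1) ∣ z - cc n - 4 ^ a)
            (fun hh => by have := h1.mp hh; omega),
          ind_not (fun hh => by have := h2.mp hh; omega),
          ind_of (P := fun z => (4 : ℤ) ^ (a + 1) ∣ z - cc n - 3 * 4 ^ a) (h3.mpr (by omega))]
        norm_num
    · have hj : ∀ j : ℤ, ¬ (4 : ℤ) ^ (a + 1) ∣ z - cc n - j * 4 ^ a := fun j hh => hK (Dg_dvd hh)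
      rw [ind_not hK,
        ind_not (P := inK n (a + 1)) (fun hh => hK ((pow_dvd_pow 4 (Nat.le_succ a)).trans hh)),
        ind_not (P := fun z => (4 : ℤ) ^ (a + 1) ∣ z - cc n - 4 ^ a)
          (fun hh => hj 1 (by rwa [one_mul])),
        ind_not (fun hh => hj 2 (hK2.mp hh)),
        ind_not (P := fun z => (4 : ℤ) ^ (a + 1) ∣ z - cc n - 3 * 4 ^ a) (hj 3)]
      norm_num
  · intro n a n' z hn hz
    have hna : n < 2 ^ a := (lt_size n).trans (Nat.pow_lt_pow_right (by norm_num) hn)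
    have hz' : ∃ d : ℤ, (d = 1 ∨ d = 3) ∧ Dg n a d z := by
      rcases hz with hz | hz
      · exact ⟨1, Or.inl rfl, by unfold Dg; rwa [one_mul]⟩
      · exact ⟨3, Or.inr rfl, hz⟩
    obtain ⟨d, hd, hD⟩ := hz'
    constructor
    · intro hh
      rw [inh_Dg] at hh
      obtain ⟨e1, e2, -⟩ := digitB h hna (lt_size n') hd (Or.inl rfl) hD hh
      rw [e1, ← e2] at hn
      exact lt_irrefl _ hn
    · intro hh
      rw [ing_Dg] at hh
      obtain ⟨e1, e2, -⟩ := digitB h hna (lt_size n') hd (Or.inr rfl) hD hh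
      rw [e1, ← e2] at hn
      exact lt_irrefl _ hn
  · intro n n'
    constructor
    · intro hh
      rw [inh_Dg] at hh
      exact digitA h (lt_size n') (Or.inl rfl) hh (by simp : (4 : ℤ) ^ _ ∣ cc n - cc n)
    · intro hh
      rw [ing_Dg] at hh
      exact digitA h (lt_size n') (Or.inr rfl) hh (by simp : (4 : ℤ) ^ _ ∣ cc n - cc n)
  · intro S hS c hc z hz n' hn' hmem
    have hz' : ∃ d : ℤ, (d = 1 ∨ d = 3) ∧ Dg n' (Nat.size n') d z := by
      rcases hn' with hz | hz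
      · exact ⟨1, Or.inl rfl, inh_Dg.mp hz⟩
      · exact ⟨3, Or.inr rfl, ing_Dg.mp hz⟩
    obtain ⟨d, hd, hD⟩ := hz'
    by_cases hs : Nat.size n' < Nat.size c
    · exact digitA h (lt_size n') hd hD ((pow_dvd_pow 4 (Nat.succ_le_of_lt hs)).trans hz)
    · push Not at hs
      have e1 : (4 : ℤ) ^ Nat.size c ∣ z - cc n' := (pow_dvd_pow 4 hs).trans (Dg_dvd hD)
      have e2 := h.2.2.2.2 n' (Nat.size c)
      have e3 : (4 : ℤ) ^ Nat.size c ∣ cc (n' % 2 ^ Nat.size c) - cc c := by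
        have h1 : (4 : ℤ) ^ Nat.size c ∣ z - cc c := hz
        have := dvd_sub (dvd_sub h1 e1) e2
        have e : z - cc c - (z - cc n') - (cc n' - cc (n' % 2 ^ Nat.size c)) =
          cc (n' % 2 ^ Nat.size c) - cc c := by ring
        rwa [e] at this
      have e4 := cc_inj_mod h (Nat.mod_lt _ (by positivity)) (lt_size c) e3
      have e5 := tree_mod hS (Nat.size c) n' hmem
      rw [e4] at e5
      exact hc e5

end Pool.Agent.H37.SC
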