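import Pool.Agent.H37.SC.FIB

/-!
# Module DSJ of the board of helper85 (MP_de9001_an): disjointness of the pieces
-/

namespace Pool.Agent.H37.SC

open Pool.Agent.H85.SC

/-- The module DSJ. -/
theorem dsj (h : T_LAB) (hu : T_UNQ) : T_DSJ := by
  classical
  obtain ⟨-, -, -, -, -, hsg⟩ := h
  refine ⟨?_, ?_, ?_⟩
  · rintro n i s ⟨v1, v2⟩ hi1
    obtain ⟨g1, g2⟩ := lg_spec v1
    rw [Finset.disjoint_left]
    intro z hz hz'
    rw [mem_FA'] at hz
    obtain ⟨hr, -⟩ := hz
    have hlg : i = 2 ^ lg i → 1 ≤ lg i := by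
      intro c1
      by_contra hh
      have : lg i = 0 := by omega
      rw [this] at c1
      exact hi1 c1
    unfold EM at hz'
    split_ifs at hz' with c1 c2
    · have h1 := hlg c1
      obtain ⟨b, hb⟩ : ∃ b, lg i = b + 1 := ⟨lg i - 1, by omega⟩
      rw [mem_FS'] at hz'
      obtain ⟨h2, h3⟩ := hu _ _ _ _ _ hr hz'.1
      rw [hb, Nat.add_sub_cancel] at h3
      rw [hb, pow_succ] at c1
      have hp : 0 < 2 ^ b := by positivity
      omega
    · rw [mem_FD'] at hz'
      obtain ⟨h2, h3⟩ := hu _ _ _ _ _ hr hz'.1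
      omega
    · rw [mem_FD'] at hz'
      obtain ⟨h2, h3⟩ := hu _ _ _ _ _ hr hz'.1
      omega
  · intro n i
    refine ⟨?_, ?_, ?_⟩ <;> rw [Finset.disjoint_left] <;> intro z hz hz'
    · rw [mem_FA'] at hz hz'
      have := hz.2.1.symm.trans hz'.2.1
      omega
    · rw [mem_FS'] at hz hz'
      have := hz.2.1.symm.trans hz'.2.1
      omega
    · rw [mem_FD'] at hz hz'
      have := hz.2.2.symm.trans hz'.2.2
      omega
  · intro n i hv g
    unfold gA gS gD FA FS FD
    simp only [Finset.sum_filter]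
    simp only [← Finset.sum_add_distrib]
    refine Finset.sum_congr rfl fun z hz => ?_
    rw [mem_RS'] at hz
    obtain ⟨q1, q2, q3⟩ := hsg n i z hz
    rcases q1 with q1 | q1 <;> rcases q2 with q2 | q2 <;> rcases q3 with q3 | q3 <;>
      simp [q1, q2, q3]

end Pool.Agent.H37.SC
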