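import Pool.Agent.H85.SC.Targets

/-!
# Module FIB of the board of helper85 (MP_de9001_an): the fibres of the labelling
-/

namespace Pool.Agent.H37.SC

open Pool.Agent.H85.SC

theorem mem_RS' (n i : ℕ) (z : ℤ) : z ∈ RS n i ↔ Reg n i z := by
  simp only [RS, Finset.mem_filter, Finset.mem_Ico]
  constructor
  · exact fun h => h.2
  · intro h
    exact ⟨⟨h.2.1, h.2.2.1⟩, h⟩

theorem mem_FA' (n i : ℕ) (s z : ℤ) :
    z ∈ FA n i s ↔ Reg n i z ∧ s1 n i z = s ∧ s2 n i z = s ∧ s3 n i z = s := by
  simp only [FA, Finset.mem_filter, mem_RS']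

theorem mem_FS' (n i : ℕ) (s z : ℤ) :
    z ∈ FS n i s ↔ Reg n i z ∧ s1 n i z = s ∧ s2 n i z = s ∧ s3 n i z = -s := by
  simp only [FS, Finset.mem_filter, mem_RS']

theorem mem_FD' (n i : ℕ) (s z : ℤ) :
    z ∈ FD n i s ↔ Reg n i z ∧ s1 n i z ≠ s2 n i z ∧ s3 n i z = s := by
  simp only [FD, Finset.mem_filter, mem_RS']

theorem lg_spec {i : ℕ} (hi : 1 ≤ i) : 2 ^ lg i ≤ i ∧ i < 2 ^ (lg i + 1) :=
  ⟨Nat.pow_log_le_self 2 (by omega), Nat.lt_pow_succ_log_self (by norm_num) i⟩

theorem lg_eq {i a : ℕ} (h1 : 2 ^ a ≤ i) (h2 : i < 2 ^ (a + 1)) : lg i = a :=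
  Nat.log_eq_of_pow_le_of_lt_pow h1 h2

theorem lg_two_mul {i : ℕ} (hi : 1 ≤ i) : lg (2 * i) = lg i + 1 := by
  obtain ⟨h1, h2⟩ := lg_spec hi
  refine lg_eq ?_ ?_
  · rw [pow_succ]; omega
  · rw [pow_succ]; omega

theorem lg_succ_lt {i : ℕ} (hi : 1 ≤ i) (h : i + 1 < 2 ^ (lg i + 1)) : lg (i + 1) = lg i := by
  obtain ⟨h1, h2⟩ := lg_spec hi
  exact lg_eq (by omega) h

theorem lg_succ_eq {i : ℕ} (h : i + 1 = 2 ^ (lg i + 1)) : lg (i + 1) = lg i + 1 := by
  refine lg_eq (by omega) ?_
  rw [pow_succ, ← h]; omega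

theorem lg_pow (a : ℕ) : lg (2 ^ a) = a :=
  lg_eq le_rfl (by rw [pow_succ]; have : 0 < 2 ^ a := by positivity
                   omega)

/-- The module FIB. -/
theorem fib (h : T_LAB) : T_FIB := by
  obtain ⟨hl1, hl2, -, -, -, hsg⟩ := h
  intro S hS
  have key : ∀ z, (∃ n i, n ∈ S ∧ Reg n i z) ∨ lab S z = Lab.sg z := by
    intro z
    by_cases hz : ∃ n i, n ∈ S ∧ Reg n i z
    · exact Or.inl hz
    · right
      push Not at hz
      exact hl2 S z hz
  refine ⟨?_, ?_, ?_⟩
  · intro n i s z
    constructor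
    · intro hlab
      rcases key z with ⟨n', i', hn', hr⟩ | hc
      · rw [hl1 S n' i' z hn' hr] at hlab
        obtain ⟨q1, q2, q3⟩ := hsg n' i' z hr
        have hv : Valid n' i' := hr.1
        obtain ⟨v1, v2⟩ := hv
        obtain ⟨g1, g2⟩ := lg_spec v1
        unfold labAt at hlab
        split_ifs at hlab with c1 c2 c3 c3 c2 c3
        · injection hlab with e1 e2 e3
          subst e1 e2 e3
          refine ⟨hn', ⟨v1, v2⟩, c3, Or.inl ?_⟩
          rw [mem_FA']
          exact ⟨hr, rfl, c1.symm, c2.symm⟩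
        · injection hlab with e1 e2 e3
          subst e1 e2 e3
          have hl : lg (2 * i') = lg i' + 1 := lg_two_mul v1
          refine ⟨hn', ⟨by omega, ?_⟩, by omega, Or.inr ?_⟩
          · rw [hl, pow_succ]; omega
          · unfold EM
            rw [if_pos (by rw [hl, pow_succ]; omega), hl, Nat.add_sub_cancel, if_pos v2, ← c3,
              mem_FS']
            refine ⟨hr, rfl, c1.symm, ?_⟩
            rcases q1 with q | q <;> rcases q3 with q' | q' <;> rw [q, q'] at c2 <;>
              rw [q, q'] <;> first | rfl | exact absurd rfl c2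
        · injection hlab with e1 e2 e3
          subst e1 e2 e3
          have hl : lg (i' + 1) = lg i' := lg_succ_lt v1 c2
          refine ⟨hn', ⟨by omega, by rw [hl]; exact v2⟩, by omega, Or.inr ?_⟩
          unfold EM
          rw [if_neg (by rw [hl]; omega), Nat.add_sub_cancel, mem_FD']
          exact ⟨hr, c1, rfl⟩
        · injection hlab with e1 e2 e3
          subst e1 e2 e3
          have h2 : i' + 1 = 2 ^ (lg i' + 1) := by omega
          have hl : lg (i' + 1) = lg i' + 1 := lg_succ_eq h2
          refine ⟨c3, ⟨by omega, by rw [hl, pow_succ]; omega⟩, by omega, Or.inr ?_⟩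
          unfold EM
          rw [if_pos (by rw [hl]; exact h2), hl, Nat.add_sub_cancel, if_neg (by omega),
            Nat.add_sub_cancel, Nat.add_sub_cancel, mem_FD']
          exact ⟨hr, c1, rfl⟩
      · rw [hc] at hlab
        exact Lab.noConfusion hlab
    · rintro ⟨hn, ⟨v1, v2⟩, hi1, hz | hz⟩
      · rw [mem_FA'] at hz
        obtain ⟨hr, e1, e2, e3⟩ := hz
        rw [hl1 S n i z hn hr]
        unfold labAt
        rw [if_pos (by rw [e1, e2]), if_pos (by rw [e1, e3]), if_neg hi1, e1]
      · obtain ⟨g1, g2⟩ := lg_spec v1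
        unfold EM at hz
        split_ifs at hz with c1 c2
        · have hlg : 1 ≤ lg i := by
            by_contra hh
            have : lg i = 0 := by omega
            rw [this] at c1
            exact hi1 c1
          obtain ⟨b, hb⟩ : ∃ b, lg i = b + 1 := ⟨lg i - 1, by omega⟩
          rw [hb, Nat.add_sub_cancel] at hz c2
          rw [mem_FS'] at hz
          obtain ⟨hr, e1, e2, e3⟩ := hz
          rw [hl1 S n _ z hn hr]
          obtain ⟨q1, q2, q3⟩ := hsg n _ z hr
          unfold labAt
          rw [if_pos (by rw [e1, e2]), if_neg (by rw [e1] at q1 ⊢; rw [e3]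
                                                  rcases q1 with q | q <;> rw [q] <;> norm_num),
            if_pos (by rw [lg_pow]), e1]
          congr 1
          rw [c1, hb, pow_succ]; ring
        · have hlg : 1 ≤ lg i := by
            by_contra hh
            have : lg i = 0 := by omega
            rw [this] at c1
            exact hi1 c1
          obtain ⟨b, hb⟩ : ∃ b, lg i = b + 1 := ⟨lg i - 1, by omega⟩
          rw [hb] at hz c2 v2 c1
          rw [Nat.add_sub_cancel] at hz c2
          rw [mem_FD'] at hz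
          obtain ⟨hr, e1, e2⟩ := hz
          have hp : 0 < 2 ^ b := by positivity
          have hn' : n - 2 ^ b ∈ S := by
            refine hS.2 (n - 2 ^ b) b ?_ ?_
            · rw [pow_succ] at v2; omega
            · rwa [Nat.sub_add_cancel (by omega)]
          have hl : lg (i - 1) = b := by
            refine lg_eq ?_ ?_ <;> rw [pow_succ] at c1 <;> [skip; rw [pow_succ]] <;> omega
          rw [hl1 S _ _ z hn' hr]
          unfold labAt
          rw [if_neg e1, hl, if_neg (by omega), if_pos (by rwa [Nat.sub_add_cancel (by omega)]),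
            e2, Nat.sub_add_cancel (by omega), Nat.sub_add_cancel (by omega)]
        · rw [mem_FD'] at hz
          obtain ⟨hr, e1, e2⟩ := hz
          have hl : lg (i - 1) = lg i := lg_eq (by omega) (by omega)
          rw [hl1 S _ _ z hn hr]
          unfold labAt
          rw [if_neg e1, hl, if_pos (by omega), e2, Nat.sub_add_cancel (by omega)]
  · intro n i z
    constructor
    · intro hlab
      rcases key z with ⟨n', i', hn', hr⟩ | hc
      · rw [hl1 S n' i' z hn' hr] at hlab
        obtain ⟨q1, q2, q3⟩ := hsg n' i' z hr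
        unfold labAt at hlab
        split_ifs at hlab with c1 c2 c3 c3 c2 c3
        injection hlab with e1 e2
        subst e1 e2
        refine ⟨hn', c3, ?_⟩
        rw [mem_FS', mem_FS']
        rcases q1 with q | q <;> rcases q3 with q' | q' <;> rw [q, q'] at c2
        · exact absurd rfl c2
        · exact Or.inl ⟨hr, q, by rw [← c1, q], q'⟩
        · exact Or.inr ⟨hr, q, by rw [← c1, q], by rw [q']; norm_num⟩
        · exact absurd rfl c2
      · rw [hc] at hlab
        exact Lab.noConfusion hlab
    · rintro ⟨hn, hi, hz⟩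
      rw [mem_FS', mem_FS'] at hz
      rcases hz with ⟨hr, e1, e2, e3⟩ | ⟨hr, e1, e2, e3⟩ <;>
      · rw [hl1 S n i z hn hr]
        unfold labAt
        rw [if_pos (by rw [e1, e2]), if_neg (by rw [e1, e3]; norm_num), if_neg hi]
  · intro n i z
    constructor
    · intro hlab
      rcases key z with ⟨n', i', hn', hr⟩ | hc
      · rw [hl1 S n' i' z hn' hr] at hlab
        obtain ⟨q1, q2, q3⟩ := hsg n' i' z hr
        have hv : Valid n' i' := hr.1
        obtain ⟨g1, g2⟩ := lg_spec hv.1
        unfold labAt at hlab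
        split_ifs at hlab with c1 c2 c3 c3 c2 c3
        injection hlab with e1 e2
        subst e1 e2
        refine ⟨hn', hv, by omega, c3, ?_⟩
        rw [mem_FD', mem_FD']
        rcases q3 with q' | q'
        · exact Or.inl ⟨hr, c1, q'⟩
        · exact Or.inr ⟨hr, c1, q'⟩
      · rw [hc] at hlab
        exact Lab.noConfusion hlab
    · rintro ⟨hn, hv, hi, hn2, hz⟩
      rw [mem_FD', mem_FD'] at hz
      rcases hz with ⟨hr, e1, e2⟩ | ⟨hr, e1, e2⟩ <;>
      · rw [hl1 S n i z hn hr]
        unfold labAt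
        rw [if_neg e1, if_neg (by omega), if_neg hn2]

end Pool.Agent.H37.SC
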